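import Mathlib

/-! Rays from infinity to a subset `C` of the plane, the ray graph, the action of homeomorphisms of
the plane preserving `C`, and the horseshoe. -/

set_option autoImplicit false

open Topology unitInterval Filter

namespace Pool.Agent.N513.Ray

/-- The path `γ` in the sphere `ℂ ∪ {∞}` is a ray: a simple arc from `∞` to a point of `C` whose
interior lies in `ℂ ∖ C`. -/
structure IsRay (C : Set ℂ) (γ : C(I, OnePoint ℂ)) : Prop where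
  start : γ 0 = OnePoint.infty
  stop : ∃ c : ℂ, c ∈ C ∧ γ 1 = (c : OnePoint ℂ)
  interior : ∀ t : I, 0 < t → t < 1 → ∃ z : ℂ, z ∉ C ∧ γ t = (z : OnePoint ℂ)
  injective : Function.Injective γ

/-- Rays up to isotopy through rays. -/
def raySetoid (C : Set ℂ) : Setoid {γ : C(I, OnePoint ℂ) // IsRay C γ} where
  r γ δ := ContinuousMap.HomotopicWith γ.1 δ.1 (IsRay C)
  iseqv := ⟨fun γ => ContinuousMap.HomotopicWith.refl γ.1 γ.2,
    fun h => ContinuousMap.HomotopicWith.symm h, fun h k => ContinuousMap.HomotopicWith.trans h k⟩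

/-- The isotopy classes of rays. -/
def RayClass (C : Set ℂ) : Type := Quotient (raySetoid C)

/-- The isotopy class of a ray. -/
def toClass (C : Set ℂ) (γ : {γ : C(I, OnePoint ℂ) // IsRay C γ}) : RayClass C :=
  Quotient.mk (raySetoid C) γ

/-- The ray graph: two distinct isotopy classes of rays are adjacent if they have representatives
which meet only at infinity. -/
def rayGraph (C : Set ℂ) : SimpleGraph (RayClass C) where
  Adj a b := a ≠ b ∧ ∃ γ δ, toClass C γ = a ∧ toClass C δ = b ∧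
    ∀ s t : I, γ.1 s = δ.1 t → γ.1 s = OnePoint.infty
  symm := ⟨fun _ _ ⟨h, γ, δ, hγ, hδ, k⟩ => ⟨h.symm, δ, γ, hδ, hγ, fun s t e => by
    rw [e]; exact k t s e.symm⟩⟩
  loopless := ⟨fun _ h => h.1 rfl⟩

/-- The homeomorphisms of the plane preserving `C`. -/
def Stab (C : Set ℂ) : Subgroup (ℂ ≃ₜ ℂ) where
  carrier := {f | ∀ z, f z ∈ C ↔ z ∈ C}
  one_mem' := fun _ => Iff.rfl
  mul_mem' := fun {f g} hf hg z => (hf (g z)).trans (hg z)
  inv_mem' := fun {f} hf z => by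
    have h := hf (f⁻¹ z)
    have e : f (f⁻¹ z) = z := f.apply_symm_apply z
    rw [e] at h
    exact h.symm

/-- The image of a ray under a homeomorphism preserving `C`. -/
noncomputable def pushRay (C : Set ℂ) (f : Stab C) (γ : {γ : C(I, OnePoint ℂ) // IsRay C γ}) :
    {γ : C(I, OnePoint ℂ) // IsRay C γ} :=
  ⟨((f : ℂ ≃ₜ ℂ).onePointCongr : C(OnePoint ℂ, OnePoint ℂ)).comp γ.1, by
    obtain ⟨γ, h1, ⟨c, hc, hc'⟩, h3, h4⟩ := γ
    refine ⟨?_, ⟨(f : ℂ ≃ₜ ℂ) c, (f.2 c).2 hc, ?_⟩, fun t ht ht' => ?_, ?_⟩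
    · show (f : ℂ ≃ₜ ℂ).onePointCongr (γ 0) = _
      rw [h1]; rfl
    · show (f : ℂ ≃ₜ ℂ).onePointCongr (γ 1) = _
      rw [hc']; rfl
    · obtain ⟨z, hz, hz'⟩ := h3 t ht ht'
      refine ⟨(f : ℂ ≃ₜ ℂ) z, fun h => hz ((f.2 z).1 h), ?_⟩
      show (f : ℂ ≃ₜ ℂ).onePointCongr (γ t) = _
      rw [hz']; rfl
    · exact (f : ℂ ≃ₜ ℂ).onePointCongr.injective.comp h4⟩

theorem pushRay_rel (C : Set ℂ) (f : Stab C) {γ δ : {γ : C(I, OnePoint ℂ) // IsRay C γ}}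
    (h : (raySetoid C).r γ δ) : (raySetoid C).r (pushRay C f γ) (pushRay C f δ) := by
  obtain ⟨H⟩ := h
  refine ⟨⟨(ContinuousMap.Homotopy.refl
    ((f : ℂ ≃ₜ ℂ).onePointCongr : C(OnePoint ℂ, OnePoint ℂ))).comp H.toHomotopy, fun t => ?_⟩⟩
  exact (pushRay C f ⟨H.toHomotopy.curry t, H.prop t⟩).2

/-- The action of the homeomorphisms preserving `C` on the isotopy classes of rays. -/
noncomputable def act (C : Set ℂ) (f : Stab C) : RayClass C → RayClass C :=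
  Quotient.map (pushRay C f) fun _ _ h => pushRay_rel C f h

/-- The self-map `φ` of the set of vertices of the connected graph `G` is loxodromic: the stable
translation length `lim dist (v, φ ^ n v) / n` is positive for every vertex `v` (equivalently, when
`G` is connected and `φ` is an automorphism, for some vertex `v`). -/
def IsLoxodromic {V : Type} (G : SimpleGraph V) (φ : V → V) : Prop :=
  ∀ v : V, ∃ τ : ℝ, 0 < τ ∧ Tendsto (fun n : ℕ => (G.dist v (φ^[n] v) : ℝ) / n) atTop (𝓝 τ)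

/-! ### The horseshoe -/

/-- The square `[0, 1] × [0, 1]`. -/
def Sq : Set ℂ := {z | 0 ≤ z.re ∧ z.re ≤ 1 ∧ 0 ≤ z.im ∧ z.im ≤ 1}

/-- The parameters of a horseshoe: the horizontal strips `H₀ = [0, 1] × [a₀, b₀]` and
`H₁ = [0, 1] × [a₁, b₁]` (`H₀` is below `H₁`) and the vertical strips `V₀ = [c₀, d₀] × [0, 1]` and
`V₁ = [c₁, d₁] × [0, 1]` (`V₀` is on the left of `V₁`). -/
structure Params : Type where
  a₀ : ℝ
  b₀ : ℝ
  a₁ : ℝ
  b₁ : ℝ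
  c₀ : ℝ
  d₀ : ℝ
  c₁ : ℝ
  d₁ : ℝ
  ha₀ : 0 ≤ a₀
  hab₀ : a₀ < b₀
  hba : b₀ < a₁
  hab₁ : a₁ < b₁
  hb₁ : b₁ ≤ 1
  hc₀ : 0 ≤ c₀
  hcd₀ : c₀ < d₀
  hdc : d₀ < c₁
  hcd₁ : c₁ < d₁
  hd₁ : d₁ ≤ 1

/-- The homeomorphism `f` of the plane is a Smale horseshoe map with the parameters `p`: it maps the
lower strip `H₀` affinely onto the left strip `V₀` and the upper strip `H₁` affinely (and turned
by a half turn) onto the right strip `V₁`; the part of the square between the strips goes above the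
square, the parts of the square below `H₀` and above `H₁` go below the square. -/
structure IsHorseshoe (p : Params) (f : ℂ ≃ₜ ℂ) : Prop where
  lower : ∀ x y : ℝ, 0 ≤ x → x ≤ 1 → p.a₀ ≤ y → y ≤ p.b₀ →
    f ⟨x, y⟩ = ⟨p.c₀ + (p.d₀ - p.c₀) * x, (y - p.a₀) / (p.b₀ - p.a₀)⟩
  upper : ∀ x y : ℝ, 0 ≤ x → x ≤ 1 → p.a₁ ≤ y → y ≤ p.b₁ →
    f ⟨x, y⟩ = ⟨p.d₁ - (p.d₁ - p.c₁) * x, (p.b₁ - y) / (p.b₁ - p.a₁)⟩
  middle : ∀ x y : ℝ, 0 ≤ x → x ≤ 1 → p.b₀ < y → y < p.a₁ → 1 < (f ⟨x, y⟩).im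
  bottom : ∀ x y : ℝ, 0 ≤ x → x ≤ 1 → 0 ≤ y → y < p.a₀ → (f ⟨x, y⟩).im < 0
  top : ∀ x y : ℝ, 0 ≤ x → x ≤ 1 → p.b₁ < y → y ≤ 1 → (f ⟨x, y⟩).im < 0

/-- The invariant set `Λ = ⋂ n ∈ ℤ, fⁿ(Q)` of the horseshoe. -/
def Lam (f : ℂ ≃ₜ ℂ) : Set ℂ := ⋂ n : ℤ, (f ^ n : ℂ ≃ₜ ℂ) '' Sq

theorem mem_Lam {f : ℂ ≃ₜ ℂ} {z : ℂ} : z ∈ Lam f ↔ ∀ n : ℤ, (f ^ n : ℂ ≃ₜ ℂ) z ∈ Sq := by
  unfold Lam
  rw [Set.mem_iInter]
  constructor
  · intro h n
    obtain ⟨w, hw, rfl⟩ := h (-n)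
    have : (f ^ n : ℂ ≃ₜ ℂ) ((f ^ (-n) : ℂ ≃ₜ ℂ) w) = (f ^ n * f ^ (-n) : ℂ ≃ₜ ℂ) w := rfl
    rw [this, ← zpow_add, add_neg_cancel, zpow_zero]
    exact hw
  · intro h n
    refine ⟨(f ^ (-n) : ℂ ≃ₜ ℂ) z, h (-n), ?_⟩
    have : (f ^ n : ℂ ≃ₜ ℂ) ((f ^ (-n) : ℂ ≃ₜ ℂ) z) = (f ^ n * f ^ (-n) : ℂ ≃ₜ ℂ) z := rfl
    rw [this, ← zpow_add, add_neg_cancel, zpow_zero]
    rfl

theorem mem_Stab_Lam (f : ℂ ≃ₜ ℂ) : f ∈ Stab (Lam f) := by
  intro z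
  rw [mem_Lam, mem_Lam]
  have key : ∀ n : ℤ, (f ^ n : ℂ ≃ₜ ℂ) (f z) = (f ^ (n + 1) : ℂ ≃ₜ ℂ) z := by
    intro n
    rw [zpow_add_one]; rfl
  constructor
  · intro h n
    have := h (n - 1)
    rw [key] at this
    simpa using this
  · intro h n
    rw [key]; exact h _

/-- The horseshoe as an element of the group of homeomorphisms preserving its invariant set. -/
def horseshoeStab (f : ℂ ≃ₜ ℂ) : Stab (Lam f) := ⟨f, mem_Stab_Lam f⟩

end Pool.Agent.N513.Ray
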