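import Pool.Agent.N513.Ray.Defs

/-! An explicit horseshoe homeomorphism of the plane. -/

set_option autoImplicit false

open Topology

namespace Pool.Agent.N513.Ray

/-- The first factor. -/
noncomputable def hA : ℝ × ℝ ≃ₜ ℝ × ℝ where
  toFun z := (z.1 - 1 + 3 * |z.2 - 1 / 2|, z.2 - 1 / 2)
  invFun z := (z.1 + 1 - 3 * |z.2|, z.2 + 1 / 2)
  left_inv z := by ext <;> simp <;> ring
  right_inv z := by ext <;> simp <;> ring
  continuous_toFun := by fun_prop
  continuous_invFun := by fun_prop

/-- The last factor. -/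
noncomputable def hC : ℝ × ℝ ≃ₜ ℝ × ℝ where
  toFun z := (1 / 2 + z.2, 2 - z.1 - 3 * |z.2|)
  invFun z := (2 - z.2 - 3 * |z.1 - 1 / 2|, z.1 - 1 / 2)
  left_inv z := by ext <;> simp <;> ring
  right_inv z := by ext <;> simp <;> ring
  continuous_toFun := by fun_prop
  continuous_invFun := by fun_prop

/-- The bound where the middle factor becomes a translation. -/
noncomputable def tt (q : ℝ) : ℝ := max (q / 3) (1 / 6)

/-- The length of the translation. -/
noncomputable def bb (q : ℝ) : ℝ := 1 / 6 - q / 3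

theorem tt_pos (q : ℝ) : 0 < tt q := lt_of_lt_of_le (by norm_num) (le_max_right _ _)

theorem tt_add_bb_pos (q : ℝ) : 0 < tt q + bb q := by
  have h := le_max_left (q / 3) (1 / 6)
  unfold tt bb
  linarith

theorem mid_left (q v : ℝ) :
    (v * (1 + bb q / max |v| (tt q))) *
      (1 - bb q / max |v * (1 + bb q / max |v| (tt q))| (tt q + bb q)) = v := by
  have ht := tt_pos q
  have htb := tt_add_bb_pos q
  rcases le_total (tt q) |v| with h | h
  · have hv : 0 < |v| := ht.trans_le h
    rw [max_eq_left h]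
    have h1 : 1 + bb q / |v| = (|v| + bb q) / |v| := by field_simp
    have h2 : |v * (1 + bb q / |v|)| = |v| + bb q := by
      rw [abs_mul, h1, abs_div, abs_abs, abs_of_pos (show 0 < |v| + bb q by linarith)]
      field_simp
    have h3 : 0 < |v| + bb q := by linarith
    rw [h2, max_eq_left (by linarith), h1]
    field_simp
    ring
  · rw [max_eq_right h]
    have h1 : 1 + bb q / tt q = (tt q + bb q) / tt q := by field_simp
    have h2 : |v * (1 + bb q / tt q)| ≤ tt q + bb q := by
      rw [abs_mul, h1, abs_div, abs_of_pos htb, abs_of_pos ht, mul_div_assoc', div_le_iff₀ ht,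
        mul_comm]
      exact mul_le_mul_of_nonneg_left h htb.le
    rw [max_eq_right h2, h1]
    field_simp
    ring

theorem mid_right (q v : ℝ) :
    (v * (1 - bb q / max |v| (tt q + bb q))) *
      (1 + bb q / max |v * (1 - bb q / max |v| (tt q + bb q))| (tt q)) = v := by
  have ht := tt_pos q
  have htb := tt_add_bb_pos q
  rcases le_total (tt q + bb q) |v| with h | h
  · have hv : 0 < |v| := htb.trans_le h
    rw [max_eq_left h]
    have h1 : 1 - bb q / |v| = (|v| - bb q) / |v| := by field_simp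
    have h3 : 0 < |v| - bb q := by linarith
    have h2 : |v * (1 - bb q / |v|)| = |v| - bb q := by
      rw [abs_mul, h1, abs_div, abs_abs, abs_of_pos h3]
      field_simp
    rw [h2, max_eq_left (by linarith), h1]
    field_simp
    ring
  · rw [max_eq_right h]
    have h1 : 1 - bb q / (tt q + bb q) = tt q / (tt q + bb q) := by
      field_simp; ring
    have h2 : |v * (1 - bb q / (tt q + bb q))| ≤ tt q := by
      rw [abs_mul, h1, abs_div, abs_of_pos htb, abs_of_pos ht, mul_div_assoc', div_le_iff₀ htb,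
        mul_comm]
      exact mul_le_mul_of_nonneg_left h ht.le
    rw [max_eq_right h2, h1]
    field_simp
    try ring

/-- The middle factor. -/
noncomputable def hB : ℝ × ℝ ≃ₜ ℝ × ℝ where
  toFun z := (z.1, z.2 * (1 + bb z.1 / max |z.2| (tt z.1)))
  invFun z := (z.1, z.2 * (1 - bb z.1 / max |z.2| (tt z.1 + bb z.1)))
  left_inv z := Prod.ext rfl (mid_left z.1 z.2)
  right_inv z := Prod.ext rfl (mid_right z.1 z.2)
  continuous_toFun := by
    have h1 : Continuous bb := by unfold bb; fun_prop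
    have h2 : Continuous tt := by unfold tt; fun_prop
    refine continuous_fst.prodMk (continuous_snd.mul (continuous_const.add ?_))
    exact (h1.comp continuous_fst).div (continuous_snd.abs.max (h2.comp continuous_fst))
      fun z => ((tt_pos z.1).trans_le (le_max_right _ _)).ne'
  continuous_invFun := by
    have h1 : Continuous bb := by unfold bb; fun_prop
    have h2 : Continuous tt := by unfold tt; fun_prop
    refine continuous_fst.prodMk (continuous_snd.mul (continuous_const.sub ?_))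
    exact (h1.comp continuous_fst).div
      (continuous_snd.abs.max ((h2.comp continuous_fst).add (h1.comp continuous_fst)))
      fun z => ((tt_add_bb_pos z.1).trans_le (le_max_right _ _)).ne'

/-- An explicit horseshoe. -/
noncomputable def horse : ℂ ≃ₜ ℂ :=
  (Complex.equivRealProdCLM.toHomeomorph.trans (hA.trans (hB.trans hC))).trans
    Complex.equivRealProdCLM.symm.toHomeomorph

theorem horse_apply (x y : ℝ) : horse ⟨x, y⟩ =
    ⟨1 / 2 + (y - 1 / 2) * (1 + bb (x - 1 + 3 * |y - 1 / 2|) /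
      max |y - 1 / 2| (tt (x - 1 + 3 * |y - 1 / 2|))),
      2 - (x - 1 + 3 * |y - 1 / 2|) - 3 * |(y - 1 / 2) * (1 + bb (x - 1 + 3 * |y - 1 / 2|) /
      max |y - 1 / 2| (tt (x - 1 + 3 * |y - 1 / 2|)))|⟩ := rfl

/-- The parameters of the explicit horseshoe. -/
noncomputable def pStd : Params where
  a₀ := 0
  b₀ := 1 / 3
  a₁ := 2 / 3
  b₁ := 1
  c₀ := 0
  d₀ := 1 / 3
  c₁ := 2 / 3
  d₁ := 1
  ha₀ := by norm_num
  hab₀ := by norm_num
  hba := by norm_num
  hab₁ := by norm_num
  hb₁ := by norm_num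
  hc₀ := by norm_num
  hcd₀ := by norm_num
  hdc := by norm_num
  hcd₁ := by norm_num
  hd₁ := by norm_num

theorem isHorseshoe_horse : IsHorseshoe pStd horse where
  lower x y hx0 hx1 hy0 hy1 := by
    have hy0' : (0 : ℝ) ≤ y := hy0
    have hy1' : y ≤ 1 / 3 := hy1
    rw [horse_apply]
    have h1 : |y - 1 / 2| = 1 / 2 - y := by rw [abs_of_nonpos (by linarith)]; ring
    rw [h1]
    have h2 : max (1 / 2 - y) (tt (x - 1 + 3 * (1 / 2 - y))) = 1 / 2 - y := by
      apply max_eq_left
      unfold tt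
      exact max_le (by linarith) (by linarith)
    rw [h2]
    have h3 : (y - 1 / 2) * (1 + bb (x - 1 + 3 * (1 / 2 - y)) / (1 / 2 - y)) = x / 3 - 1 / 2 := by
      have h : (1 / 2 - y) ≠ 0 := by linarith
      have e : (y - 1 / 2) * (1 + bb (x - 1 + 3 * (1 / 2 - y)) / (1 / 2 - y)) =
          (y - 1 / 2) - bb (x - 1 + 3 * (1 / 2 - y)) * ((1 / 2 - y) / (1 / 2 - y)) := by ring
      rw [e, div_self h]
      unfold bb
      ring
    rw [h3, abs_of_nonpos (show x / 3 - 1 / 2 ≤ 0 by linarith)]
    apply Complex.ext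
    · show 1 / 2 + (x / 3 - 1 / 2) = 0 + (1 / 3 - 0) * x
      ring
    · show 2 - (x - 1 + 3 * (1 / 2 - y)) - 3 * -(x / 3 - 1 / 2) = (y - 0) / (1 / 3 - 0)
      ring
  upper x y hx0 hx1 hy0 hy1 := by
    have hy0' : (2 / 3 : ℝ) ≤ y := hy0
    have hy1' : y ≤ 1 := hy1
    rw [horse_apply]
    have h1 : |y - 1 / 2| = y - 1 / 2 := abs_of_nonneg (by linarith)
    rw [h1]
    have h2 : max (y - 1 / 2) (tt (x - 1 + 3 * (y - 1 / 2))) = y - 1 / 2 := by
      apply max_eq_left
      unfold tt
      exact max_le (by linarith) (by linarith)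
    rw [h2]
    have h3 : (y - 1 / 2) * (1 + bb (x - 1 + 3 * (y - 1 / 2)) / (y - 1 / 2)) = 1 / 2 - x / 3 := by
      have h : (y - 1 / 2) ≠ 0 := by linarith
      have e : (y - 1 / 2) * (1 + bb (x - 1 + 3 * (y - 1 / 2)) / (y - 1 / 2)) =
          (y - 1 / 2) + bb (x - 1 + 3 * (y - 1 / 2)) * ((y - 1 / 2) / (y - 1 / 2)) := by ring
      rw [e, div_self h]
      unfold bb
      ring
    rw [h3, abs_of_nonneg (show 0 ≤ 1 / 2 - x / 3 by linarith)]
    apply Complex.ext
    · show 1 / 2 + (1 / 2 - x / 3) = 1 - (1 - 2 / 3) * x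
      ring
    · show 2 - (x - 1 + 3 * (y - 1 / 2)) - 3 * (1 / 2 - x / 3) = (1 - y) / (1 - 2 / 3)
      ring
  middle x y hx0 hx1 hy0 hy1 := by
    have hy0' : (1 / 3 : ℝ) < y := hy0
    have hy1' : y < 2 / 3 := hy1
    rw [horse_apply]
    show 1 < 2 - (x - 1 + 3 * |y - 1 / 2|) - 3 * |(y - 1 / 2) * (1 + bb (x - 1 + 3 * |y - 1 / 2|) /
      max |y - 1 / 2| (tt (x - 1 + 3 * |y - 1 / 2|)))|
    have hw : |y - 1 / 2| < 1 / 6 := by rw [abs_lt]; constructor <;> linarith
    have hw0 := abs_nonneg (y - 1 / 2)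
    set w := |y - 1 / 2| with hwdef
    have h1 : tt (x - 1 + 3 * w) = 1 / 6 := by
      unfold tt
      exact max_eq_right (by linarith)
    have h2 : max w (1 / 6) = 1 / 6 := max_eq_right hw.le
    rw [h1, h2, abs_mul, ← hwdef]
    have h3 : 0 ≤ 1 + bb (x - 1 + 3 * w) / (1 / 6) := by
      unfold bb
      linarith
    rw [abs_of_nonneg h3]
    unfold bb
    nlinarith
  bottom x y _ _ hy0 hy1 := by
    exfalso
    have : y < 0 := hy1
    linarith
  top x y _ _ hy0 hy1 := by
    exfalso
    have : 1 < y := hy0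
    linarith

end Pool.Agent.N513.Ray
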