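import Pool.Agent.N513.Ray.Main
import Pool.Agent.N513.Ray.Horse

/-! The action preserves the ray graph; orbits of elements with a fixed vertex are bounded. -/

set_option autoImplicit false

open Topology Filter

namespace Pool.Agent.N513.Ray

theorem pushRay_inv {C : Set ℂ} (f : Stab C) (γ : {γ : C(unitInterval, OnePoint ℂ) // IsRay C γ}) :
    pushRay C f⁻¹ (pushRay C f γ) = γ := by
  apply Subtype.ext
  apply ContinuousMap.ext
  intro t
  show ((f : ℂ ≃ₜ ℂ)⁻¹ : ℂ ≃ₜ ℂ).onePointCongr ((f : ℂ ≃ₜ ℂ).onePointCongr (γ.1 t)) = _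
  induction γ.1 t using OnePoint.rec with
  | infty => rfl
  | coe z => exact congrArg (fun w : ℂ => (w : OnePoint ℂ)) ((f : ℂ ≃ₜ ℂ).symm_apply_apply z)

theorem act_inv {C : Set ℂ} (f : Stab C) (a : RayClass C) : act C f⁻¹ (act C f a) = a := by
  induction a using Quotient.inductionOn with
  | h γ =>
    show Quotient.mk (raySetoid C) (pushRay C f⁻¹ (pushRay C f γ)) = _
    rw [pushRay_inv]

theorem act_injective {C : Set ℂ} (f : Stab C) : Function.Injective (act C f) :=
  fun a b h => by rw [← act_inv f a, ← act_inv f b, h]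

theorem act_adj {C : Set ℂ} (f : Stab C) {a b : RayClass C} (h : (rayGraph C).Adj a b) :
    (rayGraph C).Adj (act C f a) (act C f b) := by
  obtain ⟨hne, γ, δ, hγ, hδ, k⟩ := h
  refine ⟨fun e => hne (act_injective f e), pushRay C f γ, pushRay C f δ, ?_, ?_, ?_⟩
  · rw [← hγ]; rfl
  · rw [← hδ]; rfl
  · intro s t e
    have e1 : γ.1 s = δ.1 t := (f : ℂ ≃ₜ ℂ).onePointCongr.injective e
    show (f : ℂ ≃ₜ ℂ).onePointCongr (γ.1 s) = _
    rw [k s t e1]
    rfl

/-- The action as an endomorphism of the graph. -/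
noncomputable def actHom (C : Set ℂ) (f : Stab C) : rayGraph C →g rayGraph C where
  toFun := act C f
  map_rel' h := act_adj f h

theorem dist_map_le {V : Type} {G : SimpleGraph V} (φ : G →g G) {v w : V} (h : G.Reachable v w) :
    G.dist (φ v) (φ w) ≤ G.dist v w := by
  obtain ⟨q, hq⟩ := h.exists_walk_length_eq_dist
  calc G.dist (φ v) (φ w) ≤ (q.map φ).length := SimpleGraph.dist_le _
    _ = G.dist v w := by rw [SimpleGraph.Walk.length_map, hq]

theorem orbit_bounded {V : Type} {G : SimpleGraph V} (φ : G →g G) {v : V} (hv : φ v = v) {w : V}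
    (h : G.Reachable v w) (n : ℕ) : G.Reachable w (φ^[n] w) ∧
      G.dist w (φ^[n] w) ≤ 2 * G.dist v w := by
  have key : ∀ n : ℕ, G.Reachable v (φ^[n] w) ∧ G.dist v (φ^[n] w) ≤ G.dist v w := by
    intro n
    induction n with
    | zero => exact ⟨h, le_rfl⟩
    | succ n ih =>
      rw [Function.iterate_succ_apply']
      have h1 := dist_map_le φ ih.1
      have h2 := ih.1.map φ
      rw [hv] at h1 h2
      exact ⟨h2, h1.trans ih.2⟩
  obtain ⟨h1, h2⟩ := key n
  refine ⟨h.symm.trans h1, ?_⟩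
  obtain ⟨q, hq⟩ := h.symm.exists_walk_length_eq_dist
  obtain ⟨q', hq'⟩ := h1.exists_walk_length_eq_dist
  have h3 := SimpleGraph.dist_le (q.append q')
  rw [SimpleGraph.Walk.length_append, hq, hq'] at h3
  have h4 : G.dist w v = G.dist v w := SimpleGraph.dist_comm
  omega

end Pool.Agent.N513.Ray
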