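import Pool.Agent.N513.Ray.Defs

/-! Isotopies of rays given by formulas; the fixed ray of the horseshoe. -/

set_option autoImplicit false

open Topology unitInterval Filter

namespace Pool.Agent.N513.Ray

/-- The family of paths from infinity given by `k`. -/
noncomputable def wrap (k : I × I → ℂ) (p : I × I) : OnePoint ℂ :=
  open Classical in if p.2 = 0 then OnePoint.infty else (k p : OnePoint ℂ)

theorem wrap_zero (k : I × I → ℂ) (s : I) : wrap k (s, 0) = OnePoint.infty := if_pos rfl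

theorem wrap_of_ne (k : I × I → ℂ) {p : I × I} (h : p.2 ≠ 0) : wrap k p = (k p : OnePoint ℂ) :=
  if_neg h

theorem continuous_wrap {k : I × I → ℂ} (hk : ∀ p : I × I, p.2 ≠ 0 → ContinuousAt k p)
    (hinf : ∀ M : ℝ, ∃ δ : ℝ, 0 < δ ∧ ∀ p : I × I, p.2 ≠ 0 → (p.2 : ℝ) < δ → M < ‖k p‖) :
    Continuous (wrap k) := by
  rw [continuous_iff_continuousAt]
  intro p
  by_cases hp : p.2 = 0
  · have e : wrap k p = OnePoint.infty := if_pos hp
    unfold ContinuousAt
    rw [e]
    show Filter.map (wrap k) (𝓝 p) ≤ 𝓝 OnePoint.infty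
    rw [OnePoint.le_nhds_infty]
    intro s _ hs
    obtain ⟨M, hM⟩ := hs.isBounded.exists_norm_le
    obtain ⟨δ, hδ, h⟩ := hinf M
    have hopen : ∀ᶠ q : I × I in 𝓝 p, (q.2 : ℝ) < δ := by
      have hc : Continuous fun q : I × I => (q.2 : ℝ) := continuous_subtype_val.comp continuous_snd
      exact hc.continuousAt.eventually_lt continuousAt_const (by rw [hp]; exact hδ)
    rw [Filter.mem_map]
    filter_upwards [hopen] with q hq
    by_cases hq2 : q.2 = 0
    · right
      exact if_pos hq2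
    · left
      refine ⟨k q, fun hks => ?_, (wrap_of_ne k hq2).symm⟩
      have := hM _ hks
      linarith [h q hq2 hq]
  · have hopen : ∀ᶠ q : I × I in 𝓝 p, q.2 ≠ 0 :=
      continuous_snd.continuousAt.eventually_ne hp
    have h1 : ContinuousAt (fun q => (k q : OnePoint ℂ)) p :=
      OnePoint.continuous_coe.continuousAt.comp (hk p hp)
    refine h1.congr ?_
    filter_upwards [hopen] with q hq
    exact (wrap_of_ne k hq).symm

/-- If the members of a family of paths are rays then the first and the last ray are isotopic. -/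
theorem rel_of_family {C : Set ℂ} {k : I × I → ℂ} (hc : Continuous (wrap k))
    (hray : ∀ (s : I) (γ : C(I, OnePoint ℂ)), (∀ t, γ t = wrap k (s, t)) → IsRay C γ)
    {γ δ : {γ : C(I, OnePoint ℂ) // IsRay C γ}} (hγ : ∀ t, γ.1 t = wrap k (0, t))
    (hδ : ∀ t, δ.1 t = wrap k (1, t)) : toClass C γ = toClass C δ := by
  refine Quotient.sound ⟨⟨⟨⟨wrap k, hc⟩, fun t => (hγ t).symm, fun t => (hδ t).symm⟩, ?_⟩⟩
  intro s
  exact hray s _ fun t => rfl

/-- A criterion for rays. -/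
theorem isRay_of {C : Set ℂ} {k : I × I → ℂ} {s : I} {γ : C(I, OnePoint ℂ)}
    (hγ : ∀ t, γ t = wrap k (s, t)) (h1 : k (s, 1) ∈ C)
    (h2 : ∀ t : I, 0 < t → t < 1 → k (s, t) ∉ C)
    (h3 : ∀ t t' : I, t ≠ 0 → t' ≠ 0 → k (s, t) = k (s, t') → t = t') : IsRay C γ := by
  have hone : ((s, 1) : I × I).2 ≠ 0 := one_ne_zero
  refine ⟨by rw [hγ, wrap_zero], ⟨k (s, 1), h1, by rw [hγ, wrap_of_ne k hone]⟩,
    fun t ht ht' => ⟨k (s, t), h2 t ht ht', by rw [hγ]; exact wrap_of_ne k (p := (s, t)) ht.ne'⟩,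
    ?_⟩
  intro t t' htt
  rw [hγ, hγ] at htt
  by_cases ht : t = 0
  · by_cases ht' : t' = 0
    · rw [ht, ht']
    · rw [ht, wrap_zero, wrap_of_ne k (p := (s, t')) ht'] at htt
      exact absurd htt.symm (OnePoint.coe_ne_infty _)
  · by_cases ht' : t' = 0
    · rw [ht', wrap_zero, wrap_of_ne k (p := (s, t)) ht] at htt
      exact absurd htt (OnePoint.coe_ne_infty _)
    · rw [wrap_of_ne k (p := (s, t)) ht, wrap_of_ne k (p := (s, t')) ht'] at htt
      exact h3 t t' ht ht' (OnePoint.coe_injective htt)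

section

variable (p : Params)

/-- The contraction factor. -/
def lam : ℝ := p.d₀ - p.c₀

/-- The height of the lower strip. -/
def hgt : ℝ := p.b₀ - p.a₀

theorem lam_pos : 0 < lam p := sub_pos.2 p.hcd₀

theorem lam_lt : lam p < 1 := by
  have h1 := p.hc₀; have h2 := p.hdc; have h3 := p.hcd₁; have h4 := p.hd₁
  unfold lam; linarith

theorem hgt_pos : 0 < hgt p := sub_pos.2 p.hab₀

theorem hgt_lt : hgt p < 1 := by
  have h1 := p.ha₀; have h2 := p.hba; have h3 := p.hab₁; have h4 := p.hb₁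
  unfold hgt; linarith

/-- The coordinates of the fixed point. -/
noncomputable def x₀ : ℝ := p.c₀ / (1 - lam p)

/-- The coordinates of the fixed point. -/
noncomputable def y₀ : ℝ := p.a₀ / (1 - hgt p)

theorem x₀_eq : p.c₀ + lam p * x₀ p = x₀ p := by
  have h : 1 - lam p ≠ 0 := by have := lam_lt p; linarith
  unfold x₀
  field_simp
  ring

theorem y₀_eq : p.a₀ + hgt p * y₀ p = y₀ p := by
  have h : 1 - hgt p ≠ 0 := by have := hgt_lt p; linarith
  unfold y₀
  field_simp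
  ring

theorem x₀_nonneg : 0 ≤ x₀ p := div_nonneg p.hc₀ (by have := lam_lt p; linarith)

theorem x₀_le_one : x₀ p ≤ 1 := by
  have h := lam_lt p
  unfold x₀
  rw [div_le_one (by linarith)]
  have h2 := p.hdc; have h3 := p.hcd₁; have h4 := p.hd₁
  unfold lam; linarith

theorem x₀_le : x₀ p ≤ p.d₀ := by
  have h1 := x₀_eq p
  have h2 := x₀_le_one p
  have h3 := lam_pos p
  have h4 : lam p * x₀ p ≤ lam p := mul_le_of_le_one_right h3.le h2
  have h5 : lam p = p.d₀ - p.c₀ := rfl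
  linarith

theorem y₀_nonneg : 0 ≤ y₀ p := div_nonneg p.ha₀ (by have := hgt_lt p; linarith)

theorem y₀_le_one : y₀ p ≤ 1 := by
  have h := hgt_lt p
  unfold y₀
  rw [div_le_one (by linarith)]
  have h2 := p.hba; have h3 := p.hab₁; have h4 := p.hb₁
  unfold hgt; linarith

theorem a₀_le_y₀ : p.a₀ ≤ y₀ p := by
  have h1 := y₀_eq p
  have h2 := mul_nonneg (hgt_pos p).le (y₀_nonneg p)
  linarith

theorem y₀_le_b₀ : y₀ p ≤ p.b₀ := by
  have h1 := y₀_eq p
  have h4 : hgt p * y₀ p ≤ hgt p := mul_le_of_le_one_right (hgt_pos p).le (y₀_le_one p)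
  have h5 : hgt p = p.b₀ - p.a₀ := rfl
  linarith

/-- The affine map of the lower strip, as a homeomorphism of the plane. -/
noncomputable def Aff : ℂ ≃ₜ ℂ where
  toFun w := ⟨p.c₀ + lam p * w.re, (w.im - p.a₀) / hgt p⟩
  invFun w := ⟨(w.re - p.c₀) / lam p, hgt p * w.im + p.a₀⟩
  left_inv w := by
    have h1 := (lam_pos p).ne'
    have h2 := (hgt_pos p).ne'
    apply Complex.ext <;> simp <;> field_simp
    ring
  right_inv w := by
    have h1 := (lam_pos p).ne'
    have h2 := (hgt_pos p).ne'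
    apply Complex.ext <;> simp <;> field_simp
    ring
  continuous_toFun := by
    have h1 : Continuous fun w : ℂ => ((p.c₀ + lam p * w.re, (w.im - p.a₀) / hgt p) : ℝ × ℝ) := by
      fun_prop
    exact Complex.equivRealProdCLM.symm.continuous.comp h1
  continuous_invFun := by
    have h1 : Continuous fun w : ℂ => (((w.re - p.c₀) / lam p, hgt p * w.im + p.a₀) : ℝ × ℝ) := by
      fun_prop
    exact Complex.equivRealProdCLM.symm.continuous.comp h1

theorem Aff_apply (w : ℂ) : Aff p w = ⟨p.c₀ + lam p * w.re, (w.im - p.a₀) / hgt p⟩ := rfl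

variable {p} {f : ℂ ≃ₜ ℂ} (hf : IsHorseshoe p f)

include hf in
theorem f_eq_Aff {w : ℂ} (h1 : 0 ≤ w.re) (h2 : w.re ≤ 1) (h3 : p.a₀ ≤ w.im) (h4 : w.im ≤ p.b₀) :
    f w = Aff p w := hf.lower w.re w.im h1 h2 h3 h4

include hf in
/-- Points on the left of `V₀` at the height of the square are not in the image of the square. -/
theorem not_mem_image {q : ℂ} (hq : q ∈ Sq) (h1 : 0 ≤ (f q).im) (h2 : (f q).im ≤ 1)
    (h3 : (f q).re ≤ p.d₀) : p.a₀ ≤ q.im ∧ q.im ≤ p.b₀ := by
  obtain ⟨k1, k2, k3, k4⟩ := hq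
  rcases lt_or_ge q.im p.a₀ with h | h
  · have := hf.bottom q.re q.im k1 k2 k3 h
    linarith [show (f ⟨q.re, q.im⟩).im = (f q).im from rfl]
  · rcases le_or_gt q.im p.b₀ with h' | h'
    · exact ⟨h, h'⟩
    · exfalso
      rcases lt_or_ge q.im p.a₁ with h4 | h4
      · have := hf.middle q.re q.im k1 k2 h' h4
        linarith [show (f ⟨q.re, q.im⟩).im = (f q).im from rfl]
      · rcases le_or_gt q.im p.b₁ with h5 | h5
        · have e := hf.upper q.re q.im k1 k2 h4 h5
          have e2 : (f q).re = p.d₁ - (p.d₁ - p.c₁) * q.re := congrArg Complex.re e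
          have := p.hcd₁
          have := p.hdc
          nlinarith
        · have := hf.top q.re q.im k1 k2 h5 k4
          linarith [show (f ⟨q.re, q.im⟩).im = (f q).im from rfl]

variable (p) in
/-- The fixed point. -/
noncomputable def p₀ : ℂ := ⟨x₀ p, y₀ p⟩

theorem p₀_mem_Sq : p₀ p ∈ Sq := ⟨x₀_nonneg p, x₀_le_one p, y₀_nonneg p, y₀_le_one p⟩

theorem Aff_p₀ : Aff p (p₀ p) = p₀ p := by
  rw [Aff_apply]
  apply Complex.ext
  · exact x₀_eq p
  · show (y₀ p - p.a₀) / hgt p = y₀ p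
    rw [div_eq_iff (hgt_pos p).ne']
    have := y₀_eq p
    linarith

include hf in
theorem f_p₀ : f (p₀ p) = p₀ p := by
  rw [f_eq_Aff hf (x₀_nonneg p) (x₀_le_one p) (a₀_le_y₀ p) (y₀_le_b₀ p), Aff_p₀]

include hf in
theorem p₀_mem_Lam : p₀ p ∈ Lam f := by
  rw [mem_Lam]
  intro n
  have h1 : ∀ m : ℕ, (f ^ m : ℂ ≃ₜ ℂ) (p₀ p) = p₀ p := by
    intro m
    induction m with
    | zero => rfl
    | succ m ih =>
      rw [pow_succ]
      show (f ^ m : ℂ ≃ₜ ℂ) (f (p₀ p)) = p₀ p
      rw [f_p₀ hf, ih]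
  obtain ⟨m, rfl | rfl⟩ := n.eq_nat_or_neg
  · rw [zpow_natCast, h1]; exact p₀_mem_Sq
  · have : (f ^ (-(m : ℤ)) : ℂ ≃ₜ ℂ) (p₀ p) = p₀ p := by
      conv_lhs => rw [← h1 m]
      have e : (f ^ (-(m : ℤ)) : ℂ ≃ₜ ℂ) ((f ^ m : ℂ ≃ₜ ℂ) (p₀ p)) =
        (f ^ (-(m : ℤ)) * f ^ m : ℂ ≃ₜ ℂ) (p₀ p) := rfl
      rw [e, ← zpow_natCast, ← zpow_add, neg_add_cancel, zpow_zero]; rfl
    rw [this]; exact p₀_mem_Sq

theorem Lam_subset : Lam f ⊆ Sq := fun z hz => by
  have := mem_Lam.1 hz 0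
  rwa [zpow_zero] at this

include hf in
/-- The points on the left of the fixed point, at the same height, are not in `Λ`. -/
theorem left_not_mem_Lam {x : ℝ} (hx : x < x₀ p) : (⟨x, y₀ p⟩ : ℂ) ∉ Lam f := by
  intro hz
  rw [mem_Lam] at hz
  have hl := lam_pos p
  have key : ∀ n : ℕ, (f ^ (-(n : ℤ)) : ℂ ≃ₜ ℂ) ⟨x, y₀ p⟩ =
      ⟨x₀ p - (x₀ p - x) / lam p ^ n, y₀ p⟩ := by
    intro n
    induction n with
    | zero =>
      simp only [Nat.cast_zero, neg_zero, zpow_zero, pow_zero, div_one, sub_sub_cancel]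
      rfl
    | succ n ih =>
      set u := (f ^ (-(n : ℤ)) : ℂ ≃ₜ ℂ) ⟨x, y₀ p⟩ with hu
      set v := (f ^ (-((n + 1 : ℕ) : ℤ)) : ℂ ≃ₜ ℂ) ⟨x, y₀ p⟩ with hv
      have hfv : f v = u := by
        have e : f v = (f * f ^ (-((n + 1 : ℕ) : ℤ)) : ℂ ≃ₜ ℂ) ⟨x, y₀ p⟩ := rfl
        rw [e, hu, ← zpow_one_add]
        congr 2
        push_cast; ring
      have hvS : v ∈ Sq := hz _
      have huS : u ∈ Sq := hz _
      have hure : u.re = x₀ p - (x₀ p - x) / lam p ^ n := by rw [ih]
      have huim : u.im = y₀ p := by rw [ih]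
      have hpos : 0 < (x₀ p - x) / lam p ^ n := div_pos (by linarith) (pow_pos hl n)
      have h1 := not_mem_image hf hvS (by rw [hfv]; exact huS.2.2.1) (by rw [hfv]; exact huS.2.2.2)
        (by rw [hfv, hure]; have := x₀_le p; linarith)
      have h2 := f_eq_Aff hf hvS.1 hvS.2.1 h1.1 h1.2
      rw [hfv, Aff_apply] at h2
      have h3 : u.re = p.c₀ + lam p * v.re := congrArg Complex.re h2
      have h4 : u.im = (v.im - p.a₀) / hgt p := congrArg Complex.im h2
      have hx0 := x₀_eq p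
      have hy0 := y₀_eq p
      apply Complex.ext
      · show v.re = x₀ p - (x₀ p - x) / lam p ^ (n + 1)
        rw [hure] at h3
        have h5 : lam p * v.re = lam p * (x₀ p - (x₀ p - x) / lam p ^ (n + 1)) := by
          have h6 : lam p * ((x₀ p - x) / lam p ^ (n + 1)) = (x₀ p - x) / lam p ^ n := by
            rw [pow_succ]; field_simp
          rw [mul_sub, h6]; linarith
        exact mul_left_cancel₀ hl.ne' h5
      · show v.im = y₀ p
        rw [huim, eq_div_iff (hgt_pos p).ne'] at h4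
        linarith
  -- for large `n` the point leaves the square
  have hlim : Tendsto (fun n : ℕ => (x₀ p - x) / lam p ^ n) atTop atTop := by
    have h1 : Tendsto (fun n : ℕ => (lam p)⁻¹ ^ n) atTop atTop :=
      tendsto_pow_atTop_atTop_of_one_lt ((one_lt_inv₀ hl).2 (lam_lt p))
    have h2 := h1.const_mul_atTop (show 0 < x₀ p - x by linarith)
    refine h2.congr fun n => ?_
    rw [inv_pow]; rfl
  obtain ⟨n, hn⟩ := (hlim.eventually_gt_atTop (x₀ p)).exists
  have h1 := (hz (-(n : ℤ))).1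
  rw [key n] at h1
  have h1' : 0 ≤ x₀ p - (x₀ p - x) / lam p ^ n := h1
  linarith

end

end Pool.Agent.N513.Ray
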