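import Pool.Agent.N513.Ray.Iso

/-! The horseshoe fixes the isotopy class of a ray. -/

set_option autoImplicit false

open Topology unitInterval Filter

namespace Pool.Agent.N513.Ray

variable (p : Params)

/-- The horizontal ray from the left to the fixed point, with speed `m`. -/
noncomputable def zz (m : ℝ) (t : ℝ) : ℂ := ⟨x₀ p - m * (t⁻¹ - 1), y₀ p⟩

theorem zz_one (m : ℝ) : zz p m 1 = p₀ p := by
  unfold zz p₀; simp

theorem zz_inj {m : ℝ} (hm : 0 < m) {t t' : ℝ} (h : zz p m t = zz p m t') : t = t' := by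
  have h1 : x₀ p - m * (t⁻¹ - 1) = x₀ p - m * (t'⁻¹ - 1) := congrArg Complex.re h
  have h2 : m * t⁻¹ = m * t'⁻¹ := by linarith
  exact inv_injective (mul_left_cancel₀ hm.ne' h2)

theorem Aff_zz (m t : ℝ) : Aff p (zz p m t) = zz p (lam p * m) t := by
  rw [Aff_apply]
  have hx0 := x₀_eq p
  have hy0 := y₀_eq p
  apply Complex.ext
  · show p.c₀ + lam p * (x₀ p - m * (t⁻¹ - 1)) = x₀ p - lam p * m * (t⁻¹ - 1)
    linear_combination hx0
  · show (y₀ p - p.a₀) / hgt p = y₀ p
    rw [div_eq_iff (hgt_pos p).ne']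
    linarith

theorem zz_re_lt {m : ℝ} (hm : 0 < m) {t : ℝ} (h0 : 0 < t) (h1 : t < 1) :
    x₀ p - m * (t⁻¹ - 1) < x₀ p := by
  have : 1 < t⁻¹ := (one_lt_inv₀ h0).2 h1
  nlinarith

theorem coe_ne_zero {t : I} (h : t ≠ 0) : (t : ℝ) ≠ 0 := fun h' => h (Subtype.ext h')

theorem coe_pos {t : I} (h : t ≠ 0) : 0 < (t : ℝ) :=
  lt_of_le_of_ne t.2.1 (Ne.symm (coe_ne_zero h))

theorem zz_continuousAt {g : I × I → ℝ} (hg : Continuous g) {q : I × I} (hq : q.2 ≠ 0) :
    ContinuousAt (fun q : I × I => zz p (g q) q.2) q := by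
  have h1 : ContinuousAt (fun q : I × I => ((q.2 : ℝ))⁻¹) q :=
    (continuous_subtype_val.comp continuous_snd).continuousAt.inv₀ (coe_ne_zero hq)
  have h2 : ContinuousAt (fun q : I × I => ((x₀ p - g q * ((q.2 : ℝ)⁻¹ - 1), y₀ p) : ℝ × ℝ)) q :=
    (continuousAt_const.sub (hg.continuousAt.mul (h1.sub continuousAt_const))).prodMk
      continuousAt_const
  exact Complex.equivRealProdCLM.symm.continuous.continuousAt.comp h2

/-- The rays tend to infinity uniformly. -/
theorem zz_large (μ : ℝ) (hμ : 0 < μ) (M : ℝ) : ∃ δ : ℝ, 0 < δ ∧ ∀ m t : ℝ, μ ≤ m → 0 < t →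
    t < δ → M < ‖zz p m t‖ := by
  obtain ⟨B, hB0, hB⟩ : ∃ B : ℝ, 0 < B ∧ |M| + x₀ p + μ < μ * B := by
    refine ⟨(|M| + x₀ p + μ) / μ + 1, ?_, ?_⟩
    · have := x₀_nonneg p
      positivity
    · rw [mul_add, mul_div_cancel₀ _ hμ.ne']; linarith
  refine ⟨min 1 B⁻¹, lt_min one_pos (inv_pos.2 hB0), fun m t hm ht ht' => ?_⟩
  have h1 : B < t⁻¹ := by
    rw [lt_inv_comm₀ hB0 ht]; exact ht'.trans_le (min_le_right _ _)
  have h1' : 1 < t⁻¹ := (one_lt_inv₀ ht).2 (ht'.trans_le (min_le_left _ _))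
  have h2 : |(zz p m t).re| ≤ ‖zz p m t‖ := Complex.abs_re_le_norm _
  have h3 : (zz p m t).re = x₀ p - m * (t⁻¹ - 1) := rfl
  have h4 : μ * (t⁻¹ - 1) ≤ m * (t⁻¹ - 1) := mul_le_mul_of_nonneg_right hm (by linarith)
  have h5 : μ * B < μ * t⁻¹ := mul_lt_mul_of_pos_left h1 hμ
  have h6 := neg_abs_le (zz p m t).re
  have h7 := le_abs_self M
  rw [h3] at h6 h2
  nlinarith

/-- The ray with speed `m` as a path in the sphere. -/
noncomputable def fam (m : ℝ) : I × I → ℂ := fun q => zz p m q.2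

theorem fam_continuous {m : ℝ} (hm : 0 < m) : Continuous (wrap (fam p m)) := by
  refine continuous_wrap (fun q hq => zz_continuousAt p continuous_const hq) fun M => ?_
  obtain ⟨δ, hδ, h⟩ := zz_large p m hm M
  exact ⟨δ, hδ, fun q hq hq' => h m q.2 le_rfl (coe_pos hq) hq'⟩

/-- The path. -/
noncomputable def path (m : ℝ) (hm : 0 < m) : C(I, OnePoint ℂ) :=
  ⟨fun t => wrap (fam p m) (0, t), (fam_continuous p hm).comp (by fun_prop)⟩

variable {p} {f : ℂ ≃ₜ ℂ} (hf : IsHorseshoe p f)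

include hf in
theorem zz_ray {k : I × I → ℂ} {s : I} {m : ℝ} (hm : 0 < m) (hk : ∀ t, k (s, t) = zz p m t)
    (γ : C(I, OnePoint ℂ)) (hγ : ∀ t, γ t = wrap k (s, t)) : IsRay (Lam f) γ := by
  refine isRay_of hγ ?_ ?_ ?_
  · rw [hk, show ((1 : I) : ℝ) = 1 from rfl, zz_one]
    exact p₀_mem_Lam hf
  · intro t ht ht'
    rw [hk]
    exact left_not_mem_Lam hf (zz_re_lt p hm ht ht')
  · intro t t' _ _ h
    rw [hk, hk] at h
    exact Subtype.ext (zz_inj p hm h)

/-- The ray with speed `m`. -/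
noncomputable def ray (hf : IsHorseshoe p f) (m : ℝ) (hm : 0 < m) :
    {γ : C(I, OnePoint ℂ) // IsRay (Lam f) γ} :=
  ⟨path p m hm, zz_ray hf (k := fam p m) (s := 0) hm (fun _ => rfl) _ fun _ => rfl⟩

/-- The class of the ray does not depend on the speed. -/
theorem ray_class (m m' : ℝ) (hm : 0 < m) (hm' : 0 < m') :
    toClass (Lam f) (ray hf m hm) = toClass (Lam f) (ray hf m' hm') := by
  let g : I × I → ℝ := fun q => (1 - (q.1 : ℝ)) * m + q.1 * m'
  have hg : Continuous g := by fun_prop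
  have hgpos : ∀ q, min m m' ≤ g q := by
    intro q
    have h0 := q.1.2.1
    have h1 := q.1.2.2
    have h2 := min_le_left m m'
    have h3 := min_le_right m m'
    show min m m' ≤ (1 - (q.1 : ℝ)) * m + q.1 * m'
    nlinarith
  have hmin : 0 < min m m' := lt_min hm hm'
  refine rel_of_family (k := fun q => zz p (g q) q.2) ?_ ?_ ?_ ?_
  · refine continuous_wrap (fun q hq => zz_continuousAt p hg hq) fun M => ?_
    obtain ⟨δ, hδ, h⟩ := zz_large p _ hmin M
    exact ⟨δ, hδ, fun q hq hq' => h _ q.2 (hgpos q) (coe_pos hq) hq'⟩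
  · intro s γ hγ
    exact zz_ray hf (s := s) (m := g (s, 0)) (hmin.trans_le (hgpos _)) (fun t => rfl) γ hγ
  · intro t
    have e : (fun q : I × I => zz p (g q) q.2) (0, t) = fam p m (0, t) := by
      show zz p ((1 - ((0 : I) : ℝ)) * m + ((0 : I) : ℝ) * m') t = zz p m t
      simp
    show wrap (fam p m) (0, t) = wrap _ (0, t)
    by_cases ht : t = 0
    · rw [ht, wrap_zero, wrap_zero]
    · rw [wrap_of_ne _ (p := (0, t)) ht, wrap_of_ne _ (p := (0, t)) ht]
      exact congrArg _ e.symm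
  · intro t
    have e : (fun q : I × I => zz p (g q) q.2) (1, t) = fam p m' (0, t) := by
      show zz p ((1 - ((1 : I) : ℝ)) * m + ((1 : I) : ℝ) * m') t = zz p m' t
      simp
    show wrap (fam p m') (0, t) = wrap _ (1, t)
    by_cases ht : t = 0
    · rw [ht, wrap_zero, wrap_zero]
    · rw [wrap_of_ne _ (p := (0, t)) ht, wrap_of_ne _ (p := (1, t)) ht]
      exact congrArg _ e.symm

/-! ### The Alexander trick -/

variable (p) in
/-- The centre. -/
noncomputable def cc : ℂ := ⟨1 / 2, (p.a₀ + p.b₀) / 2⟩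

variable (p) in
/-- The point `c + σ (z - c)`. -/
noncomputable def ww (q : I × I) : ℂ := cc p + ((q.1 : ℝ) : ℂ) * (zz p 1 q.2 - cc p)

theorem ww_re (q : I × I) :
    (ww p q).re = (1 - (q.1 : ℝ)) * (1 / 2) + q.1 * (zz p 1 q.2).re := by
  unfold ww cc
  simp only [Complex.add_re, Complex.re_ofReal_mul, Complex.sub_re]
  ring

theorem ww_im (q : I × I) :
    (ww p q).im = (1 - (q.1 : ℝ)) * ((p.a₀ + p.b₀) / 2) + q.1 * y₀ p := by
  unfold ww cc
  simp only [Complex.add_im, Complex.im_ofReal_mul, Complex.sub_im]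
  show _ = _
  have : (zz p 1 q.2).im = y₀ p := rfl
  rw [this]; ring

theorem ww_im_bounds (q : I × I) : p.a₀ ≤ (ww p q).im ∧ (ww p q).im ≤ p.b₀ := by
  rw [ww_im]
  have h0 := q.1.2.1
  have h1 := q.1.2.2
  have h2 := a₀_le_y₀ p
  have h3 := y₀_le_b₀ p
  have h4 := p.hab₀
  constructor <;> nlinarith

theorem zz_re_le {t : I} (ht : t ≠ 0) : (zz p 1 t).re ≤ x₀ p := by
  show x₀ p - 1 * ((t : ℝ)⁻¹ - 1) ≤ x₀ p
  have : 1 ≤ (t : ℝ)⁻¹ := (one_le_inv₀ (coe_pos ht)).2 t.2.2
  linarith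

theorem ww_re_le {q : I × I} (hq : q.2 ≠ 0) : (ww p q).re ≤ 1 := by
  rw [ww_re]
  have h0 := q.1.2.1
  have h1 := q.1.2.2
  have h2 := zz_re_le (p := p) hq
  have h3 := x₀_le_one p
  nlinarith

variable (p f) in
/-- The Alexander isotopy. -/
noncomputable def kk (q : I × I) : ℂ :=
  open Classical in
  if q.1 = 0 then zz p 1 q.2
  else cc p + ((q.1 : ℝ) : ℂ)⁻¹ * (f.symm (Aff p (ww p q)) - cc p)

theorem kk_of_ne {q : I × I} (h : q.1 ≠ 0) :
    kk p f q = cc p + ((q.1 : ℝ) : ℂ)⁻¹ * (f.symm (Aff p (ww p q)) - cc p) := if_neg h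

include hf in
theorem kk_in {q : I × I} (hq : q.2 ≠ 0) (h : 0 ≤ (ww p q).re) : kk p f q = zz p 1 q.2 := by
  by_cases h0 : q.1 = 0
  · exact if_pos h0
  · rw [kk_of_ne h0]
    have h1 : f.symm (Aff p (ww p q)) = ww p q := by
      rw [Homeomorph.symm_apply_eq]
      exact (f_eq_Aff hf h (ww_re_le hq) (ww_im_bounds q).1 (ww_im_bounds q).2).symm
    rw [h1]
    have h2 : ((q.1 : ℝ) : ℂ) ≠ 0 := by
      exact_mod_cast coe_ne_zero h0
    unfold ww
    rw [add_sub_cancel_left, inv_mul_cancel_left₀ h2]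
    ring

include hf in
theorem not_mem_Sq_of_neg {w : ℂ} (h1 : p.a₀ ≤ w.im) (h2 : w.im ≤ p.b₀) (h3 : w.re < 0) :
    f.symm (Aff p w) ∉ Sq := by
  intro h
  have hfq : f (f.symm (Aff p w)) = Aff p w := f.apply_symm_apply _
  have hl := lam_pos p
  have hh := hgt_pos p
  have e1 : (Aff p w).re = p.c₀ + lam p * w.re := rfl
  have e2 : (Aff p w).im = (w.im - p.a₀) / hgt p := rfl
  have k1 : 0 ≤ (Aff p w).im := by rw [e2]; exact div_nonneg (by linarith) hh.le
  have k2 : (Aff p w).im ≤ 1 := by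
    rw [e2, div_le_one hh]; unfold hgt; linarith
  have k3 : (Aff p w).re < p.c₀ := by
    rw [e1]; nlinarith
  have k4 := not_mem_image hf h (by rw [hfq]; exact k1) (by rw [hfq]; exact k2)
    (by rw [hfq]; have := p.hcd₀; linarith)
  have k5 := f_eq_Aff hf h.1 h.2.1 k4.1 k4.2
  rw [hfq] at k5
  have k6 : (Aff p w).re = p.c₀ + lam p * (f.symm (Aff p w)).re := congrArg Complex.re k5
  have k7 := mul_nonneg hl.le h.1
  linarith

theorem cc_mem_Sq : cc p ∈ Sq := by
  have h1 := p.ha₀; have h2 := p.hab₀; have h3 := p.hba; have h4 := p.hab₁; have h5 := p.hb₁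
  refine ⟨?_, ?_, ?_, ?_⟩
  · show (0 : ℝ) ≤ 1 / 2; norm_num
  · show (1 / 2 : ℝ) ≤ 1; norm_num
  · show 0 ≤ (p.a₀ + p.b₀) / 2; linarith
  · show (p.a₀ + p.b₀) / 2 ≤ 1; linarith

/-- A scaled copy of a point outside the square is outside the square. -/
theorem not_mem_Sq_scale {sg : ℝ} (h0 : 0 < sg) (h1 : sg ≤ 1) {u : ℂ} (hu : u ∉ Sq) :
    cc p + (sg : ℂ)⁻¹ * (u - cc p) ∉ Sq := by
  intro h
  apply hu
  have hc := cc_mem_Sq (p := p)
  set v := cc p + (sg : ℂ)⁻¹ * (u - cc p) with hv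
  have hsg : (sg : ℂ) ≠ 0 := by exact_mod_cast h0.ne'
  have e : u = cc p + (sg : ℂ) * (v - cc p) := by
    rw [hv, add_sub_cancel_left, mul_inv_cancel_left₀ hsg]; ring
  obtain ⟨c1, c2, c3, c4⟩ := hc
  obtain ⟨v1, v2, v3, v4⟩ := h
  rw [e]
  refine ⟨?_, ?_, ?_, ?_⟩ <;>
    simp only [Complex.add_re, Complex.re_ofReal_mul, Complex.sub_re, Complex.add_im,
      Complex.im_ofReal_mul, Complex.sub_im] <;> nlinarith

include hf in
theorem kk_out {q : I × I} (h : (ww p q).re < 0) : q.1 ≠ 0 ∧ kk p f q ∉ Sq := by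
  have h0 : q.1 ≠ 0 := by
    intro h0
    rw [ww_re, h0] at h
    norm_num at h
  refine ⟨h0, ?_⟩
  rw [kk_of_ne h0]
  exact not_mem_Sq_scale (coe_pos h0) q.1.2.2
    (not_mem_Sq_of_neg hf (ww_im_bounds q).1 (ww_im_bounds q).2 h)

include hf in
theorem kk_ray (s : I) (γ : C(I, OnePoint ℂ)) (hγ : ∀ t, γ t = wrap (kk p f) (s, t)) :
    IsRay (Lam f) γ := by
  refine isRay_of hγ ?_ ?_ ?_
  · have h1 : kk p f (s, 1) = zz p 1 ((1 : I) : ℝ) := by
      refine kk_in hf (q := (s, 1)) one_ne_zero ?_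
      rw [ww_re]
      have h0 := s.2.1
      have h1 := s.2.2
      have h2 : (zz p 1 ((1 : I) : ℝ)).re = x₀ p := by
        rw [show ((1 : I) : ℝ) = 1 from rfl, zz_one]; rfl
      show 0 ≤ (1 - (s : ℝ)) * (1 / 2) + s * (zz p 1 ((1 : I) : ℝ)).re
      rw [h2]
      have h3 := mul_nonneg h0 (x₀_nonneg p)
      nlinarith
    rw [h1, show ((1 : I) : ℝ) = 1 from rfl, zz_one]
    exact p₀_mem_Lam hf
  · intro t ht ht'
    rcases lt_or_ge (ww p (s, t)).re 0 with h | h
    · exact fun h' => (kk_out hf h).2 (Lam_subset h')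
    · rw [kk_in hf (q := (s, t)) ht.ne' h]
      exact left_not_mem_Lam hf (zz_re_lt p one_pos ht ht')
  · intro t t' ht ht' h
    by_cases hs : s = 0
    · rw [show kk p f (s, t) = zz p 1 t from if_pos hs,
        show kk p f (s, t') = zz p 1 t' from if_pos hs] at h
      exact Subtype.ext (zz_inj p one_pos h)
    · rw [kk_of_ne (q := (s, t)) hs, kk_of_ne (q := (s, t')) hs] at h
      have hs' : ((s : ℝ) : ℂ) ≠ 0 := by exact_mod_cast coe_ne_zero hs
      have h1 := mul_left_cancel₀ (inv_ne_zero hs') (add_left_cancel h)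
      have h2 := (Aff p).injective (f.symm.injective (sub_left_injective h1))
      have h3 : ((s : ℝ) : ℂ) * (zz p 1 t - cc p) = ((s : ℝ) : ℂ) * (zz p 1 t' - cc p) :=
        add_left_cancel h2
      exact Subtype.ext (zz_inj p one_pos (sub_left_injective (mul_left_cancel₀ hs' h3)))

theorem zz1_continuousAt {q : I × I} (hq : q.2 ≠ 0) :
    ContinuousAt (fun q : I × I => zz p 1 q.2) q :=
  zz_continuousAt p (g := fun _ => 1) continuous_const hq

theorem ww_continuousAt {q : I × I} (hq : q.2 ≠ 0) : ContinuousAt (ww p) q := by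
  have h1 : ContinuousAt (fun q : I × I => ((q.1 : ℝ) : ℂ)) q := by fun_prop
  exact continuousAt_const.add (h1.mul ((zz1_continuousAt hq).sub continuousAt_const))

include hf in
theorem kk_continuousAt {q : I × I} (hq : q.2 ≠ 0) : ContinuousAt (kk p f) q := by
  by_cases h0 : q.1 = 0
  · have h1 : (ww p q).re = 1 / 2 := by
      rw [ww_re, h0]; norm_num
    have h2 : ∀ᶠ r in 𝓝 q, 0 < (ww p r).re :=
      (Complex.continuous_re.continuousAt.comp (ww_continuousAt hq)).eventually_const_lt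
        (by show 0 < (ww p q).re; rw [h1]; norm_num)
    have h3 : ∀ᶠ r : I × I in 𝓝 q, r.2 ≠ 0 := continuous_snd.continuousAt.eventually_ne hq
    refine (zz1_continuousAt (p := p) hq).congr ?_
    filter_upwards [h2, h3] with r hr hr'
    exact (kk_in hf hr' hr.le).symm
  · have h3 : ∀ᶠ r : I × I in 𝓝 q, r.1 ≠ 0 := continuous_fst.continuousAt.eventually_ne h0
    have h4 : ContinuousAt (fun q : I × I =>
        cc p + ((q.1 : ℝ) : ℂ)⁻¹ * (f.symm (Aff p (ww p q)) - cc p)) q := by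
      have h5 : ContinuousAt (fun q : I × I => ((q.1 : ℝ) : ℂ)) q := by fun_prop
      have h6 : ((q.1 : ℝ) : ℂ) ≠ 0 := by exact_mod_cast coe_ne_zero h0
      refine continuousAt_const.add ((h5.inv₀ h6).mul (ContinuousAt.sub ?_ continuousAt_const))
      exact f.symm.continuous.continuousAt.comp
        ((Aff p).continuous.continuousAt.comp (ww_continuousAt hq))
    refine h4.congr ?_
    filter_upwards [h3] with r hr
    exact (kk_of_ne hr).symm

include hf in
theorem kk_large (M : ℝ) : ∃ δ : ℝ, 0 < δ ∧ ∀ q : I × I, q.2 ≠ 0 → (q.2 : ℝ) < δ →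
    M < ‖kk p f q‖ := by
  -- a ball about the centre inside the square
  obtain ⟨ρ, hρ, hball⟩ : ∃ ρ : ℝ, 0 < ρ ∧ Metric.ball (cc p) ρ ⊆ Sq := by
    have h1 := p.ha₀; have h2 := p.hab₀; have h3 := p.hba; have h4 := p.hab₁; have h5 := p.hb₁
    refine ⟨min (1 / 2) ((p.b₀ - p.a₀) / 2), lt_min (by norm_num) (by linarith), fun z hz => ?_⟩
    rw [Metric.mem_ball, dist_eq_norm] at hz
    have k1 := (Complex.abs_re_le_norm (z - cc p)).trans_lt (hz.trans_le (min_le_left _ _))
    have k2 := (Complex.abs_im_le_norm (z - cc p)).trans_lt (hz.trans_le (min_le_right _ _))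
    have k3 : (z - cc p).re = z.re - 1 / 2 := rfl
    have k4 : (z - cc p).im = z.im - (p.a₀ + p.b₀) / 2 := rfl
    rw [k3, abs_lt] at k1
    rw [k4, abs_lt] at k2
    refine ⟨?_, ?_, ?_, ?_⟩ <;> linarith
  set R := |M| + ‖cc p‖ + 1 with hR
  have hR0 : 0 < R := by positivity
  -- properness
  have hprop : Tendsto (fun w => ‖f.symm (Aff p w)‖) (cocompact ℂ) atTop :=
    tendsto_norm_cocompact_atTop.comp
      (((Aff p).trans f.symm).isClosedEmbedding.tendsto_cocompact)
  obtain ⟨B, hB⟩ : ∃ B : ℝ, ∀ w : ℂ, B < ‖w‖ → R + ‖cc p‖ < ‖f.symm (Aff p w)‖ := by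
    have h1 := hprop.eventually_gt_atTop (R + ‖cc p‖)
    obtain ⟨t, ht, ht'⟩ := mem_cocompact.1 h1
    obtain ⟨B, hB⟩ := ht.isBounded.exists_norm_le
    refine ⟨B, fun w hw => ?_⟩
    by_contra h2
    have h3 : w ∈ t := by
      by_contra h4; exact h2 (ht' h4)
    linarith [hB w h3]
  obtain ⟨δ, hδ, hz⟩ := zz_large p 1 one_pos (|M| + (|B| + ‖cc p‖ + 1) * (R / ρ) + ‖cc p‖)
  refine ⟨δ, hδ, fun q hq hq' => ?_⟩
  have hzq := hz 1 q.2 le_rfl (coe_pos hq) hq'
  have hMle := le_abs_self M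
  have hBle := le_abs_self B
  have hpos : 0 ≤ (|B| + ‖cc p‖ + 1) * (R / ρ) := by positivity
  rcases lt_or_ge (ww p q).re 0 with h | h
  · obtain ⟨h0, -⟩ := kk_out hf h
    have hσ := coe_pos h0
    have hσ1 : (q.1 : ℝ) ≤ 1 := q.1.2.2
    have hns := not_mem_Sq_of_neg hf (ww_im_bounds q).1 (ww_im_bounds q).2 h
    set u := f.symm (Aff p (ww p q)) with hu
    have hρu : ρ ≤ ‖u - cc p‖ := by
      by_contra h1
      push Not at h1
      exact hns (hball (by rw [Metric.mem_ball, dist_eq_norm]; exact h1))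
    -- the norm of the difference to the centre
    have key : R ≤ ‖((q.1 : ℝ) : ℂ)⁻¹ * (u - cc p)‖ := by
      rw [norm_mul, norm_inv, Complex.norm_real, Real.norm_of_nonneg hσ.le, inv_mul_eq_div,
        le_div_iff₀ hσ]
      rcases le_or_gt ((q.1 : ℝ) * R) ρ with h1 | h1
      · rw [mul_comm]; linarith
      · -- the point `w` is large
        have h2 : ‖ww p q‖ > B := by
          have e : ((q.1 : ℝ) : ℂ) * (zz p 1 q.2 - cc p) = ww p q - cc p := by
            unfold ww; ring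
          have e2 : (q.1 : ℝ) * ‖zz p 1 q.2 - cc p‖ = ‖ww p q - cc p‖ := by
            rw [← e, norm_mul, Complex.norm_real, Real.norm_of_nonneg hσ.le]
          have e3 := norm_sub_norm_le (zz p 1 q.2) (cc p)
          have e4 := norm_sub_le (ww p q) (cc p)
          have e5 : (|B| + ‖cc p‖ + 1) * (R / ρ) < ‖zz p 1 q.2 - cc p‖ := by
            have := abs_nonneg M
            linarith
          have e6 : ρ / R < q.1 := by rw [div_lt_iff₀ hR0]; exact h1
          have e7 : (|B| + ‖cc p‖ + 1) < (q.1 : ℝ) * ‖zz p 1 q.2 - cc p‖ := by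
            have k1 : (|B| + ‖cc p‖ + 1) = (ρ / R) * ((|B| + ‖cc p‖ + 1) * (R / ρ)) := by
              field_simp
            have k2 : 0 < ρ / R := by positivity
            rw [k1]
            exact mul_lt_mul' e6.le e5 hpos hσ
          rw [e2] at e7
          linarith
        have h3 := hB _ h2
        have h4 := norm_sub_norm_le u (cc p)
        have h5 : R < ‖u - cc p‖ := by linarith
        have h6 : R * q.1 ≤ R := mul_le_of_le_one_right hR0.le hσ1
        linarith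
    rw [kk_of_ne h0]
    have h7 := norm_sub_norm_le (((q.1 : ℝ) : ℂ)⁻¹ * (u - cc p)) (-cc p)
    rw [norm_neg, sub_neg_eq_add, add_comm (((q.1 : ℝ) : ℂ)⁻¹ * (u - cc p))] at h7
    linarith
  · rw [kk_in hf hq h]
    have := norm_nonneg (cc p)
    linarith

/-- The horseshoe fixes the class of the horizontal ray to the fixed point. -/
theorem fixed_class : act (Lam f) (horseshoeStab f) (toClass (Lam f) (ray hf 1 one_pos)) =
    toClass (Lam f) (ray hf 1 one_pos) := by
  have hl := lam_pos p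
  have hl' : 0 < lam p * 1 := by linarith
  -- the isotopy from the ray to its preimage
  have key : toClass (Lam f) (ray hf 1 one_pos) =
      toClass (Lam f) (pushRay (Lam f) (horseshoeStab f)⁻¹ (ray hf (lam p * 1) hl')) := by
    refine rel_of_family (k := kk p f)
      (continuous_wrap (fun q hq => kk_continuousAt hf hq) (kk_large hf)) (kk_ray hf) ?_ ?_
    · intro t
      show wrap (fam p 1) (0, t) = wrap _ (0, t)
      by_cases ht : t = 0
      · rw [ht, wrap_zero, wrap_zero]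
      · rw [wrap_of_ne _ (p := (0, t)) ht, wrap_of_ne _ (p := (0, t)) ht]
        congr 1
        exact (if_pos rfl : kk p f (0, t) = zz p 1 t).symm
    · intro t
      show (f⁻¹ : ℂ ≃ₜ ℂ).onePointCongr (wrap (fam p (lam p * 1)) (0, t)) = wrap _ (1, t)
      by_cases ht : t = 0
      · rw [ht, wrap_zero, wrap_zero]; rfl
      · rw [wrap_of_ne _ (p := (0, t)) ht, wrap_of_ne _ (p := (1, t)) ht,
          kk_of_ne (q := (1, t)) one_ne_zero]
        have e1 : ww p (1, t) = zz p 1 t := by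
          unfold ww
          show cc p + (((1 : I) : ℝ) : ℂ) * (zz p 1 t - cc p) = _
          rw [show (((1 : I) : ℝ) : ℂ) = 1 by simp]; ring
        rw [e1, Aff_zz]
        have e2 : cc p + (((1 : I) : ℝ) : ℂ)⁻¹ * (f.symm (zz p (lam p * 1) t) - cc p) =
            f.symm (zz p (lam p * 1) t) := by
          rw [show (((1 : I) : ℝ) : ℂ) = 1 by simp, inv_one]; ring
        show _ = ((cc p + (((1 : I) : ℝ) : ℂ)⁻¹ * (f.symm (zz p (lam p * 1) t) - cc p) : ℂ) :
          OnePoint ℂ)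
        rw [e2]; rfl
  have h1 : act (Lam f) (horseshoeStab f) (toClass (Lam f) (ray hf 1 one_pos)) =
      toClass (Lam f) (pushRay (Lam f) (horseshoeStab f)
        (pushRay (Lam f) (horseshoeStab f)⁻¹ (ray hf (lam p * 1) hl'))) := by
    rw [key]; rfl
  have h2 : pushRay (Lam f) (horseshoeStab f)
      (pushRay (Lam f) (horseshoeStab f)⁻¹ (ray hf (lam p * 1) hl')) = ray hf (lam p * 1) hl' := by
    apply Subtype.ext
    apply ContinuousMap.ext
    intro t
    show f.onePointCongr ((f⁻¹ : ℂ ≃ₜ ℂ).onePointCongr ((ray hf (lam p * 1) hl').1 t)) = _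
    induction (ray hf (lam p * 1) hl').1 t using OnePoint.rec with
    | infty => rfl
    | coe z => exact congrArg (fun w : ℂ => (w : OnePoint ℂ)) (f.apply_symm_apply z)
  rw [h1, h2]
  exact ray_class hf _ _ _ _

end Pool.Agent.N513.Ray
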